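import Pool.Agent.R295.HM.CondExp

/-!
# MP_0a1256_an: the ternary identity does not characterise conditional expectations

Let `E = B = ℂ²`, `F = ℂ (1, 1)` and `𝔼 (y₁, y₂) = (2 y₁ - y₂) (1, 1)`. Then `𝔼` is a linear
idempotent with range the closed ternary subspace `F`, it satisfies
`𝔼 (𝔼 x ⟨y, 𝔼 z⟩) = 𝔼 x ⟨𝔼 y, 𝔼 z⟩`, but `‖𝔼 (1, -1)‖ = 3`; hence it is not the `(2,1)`-corner of
a blockwise conditional expectation.
-/

set_option autoImplicit false

open Pool.Agent.R295.HM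

namespace Pool.Agent.Results.MP_0a1256_an.NotCondExp

/-- **The identity does not imply that the idempotent is a conditional expectation, nor even that
it is contractive.** -/
theorem result :
    ∃ (B E : Type) (_ : NonUnitalCStarAlgebra B) (_ : NormedAddCommGroup E) (_ : NormedSpace ℂ E)
      (_ : CompleteSpace E) (H : HilbertModule B E) (F : Submodule ℂ E) (P : E →ₗ[ℂ] E),
      H.IsTernary F ∧ (∀ x, P x ∈ F) ∧ (∀ x ∈ F, P x = x) ∧
      (∀ x y z : E, P (H.act (P x) (H.ip y (P z))) = H.act (P x) (H.ip (P y) (P z))) ∧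
      (∃ x : E, ‖x‖ < ‖P x‖) ∧
      ¬ ∃ Φ : (B × E →ₗ[ℂ] B × E) → (B × E →ₗ[ℂ] B × E), H.IsBlockCondExp F Φ ∧
        ∀ y : E, Φ (H.block 0 0 y 0) = H.block 0 0 (P y) 0 := by
  let P : ℂ × ℂ →ₗ[ℂ] ℂ × ℂ :=
    { toFun := fun y => (2 * y.1 - y.2, 2 * y.1 - y.2)
      map_add' := fun x y => by ext <;> simp <;> ring
      map_smul' := fun c y => by ext <;> simp <;> ring }
  have hP : ∀ y : ℂ × ℂ, P y = (2 * y.1 - y.2, 2 * y.1 - y.2) := fun y => rfl
  let F : Submodule ℂ (ℂ × ℂ) := LinearMap.eqLocus (LinearMap.fst ℂ ℂ ℂ) (LinearMap.snd ℂ ℂ ℂ)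
  have hF : ∀ y : ℂ × ℂ, y ∈ F ↔ y.1 = y.2 := fun y => Iff.rfl
  have hn : ‖((1 : ℂ), (-1 : ℂ))‖ = 1 := by simp [Prod.norm_def]
  have hPn : ‖P ((1 : ℂ), (-1 : ℂ))‖ = 3 := by
    rw [hP]
    norm_num [Prod.norm_def]
  refine ⟨ℂ × ℂ, ℂ × ℂ, inferInstance, inferInstance, inferInstance, inferInstance,
    HilbertModule.self (ℂ × ℂ), F, P, ⟨?_, ?_⟩, ?_, ?_, ?_, ⟨((1 : ℂ), (-1 : ℂ)), ?_⟩, ?_⟩
  · exact isClosed_eq continuous_fst continuous_snd
  · intro x hx y hy z hz
    rw [hF] at hx hy hz ⊢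
    simp [hx, hy, hz]
  · intro x
    rw [hF, hP]
  · intro x hx
    rw [hF] at hx
    rw [hP]
    ext
    · simp only [← hx]; ring
    · simp only [← hx]; ring
  · intro x y z
    simp only [hP, HilbertModule.self_act, HilbertModule.self_ip, Prod.fst_mul, Prod.snd_mul,
      Prod.fst_star, Prod.snd_star, star_sub, star_mul]
    ext
    · simp only [Prod.fst_mul, Prod.fst_star, star_sub, star_mul, star_ofNat]
      ring
    · simp only [Prod.snd_mul, Prod.snd_star, star_sub, star_mul, star_ofNat]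
      ring
  · rw [hn, hPn]; norm_num
  · rintro ⟨Φ, hΦ, hΦP⟩
    have h0 : (0 : ℂ × ℂ) ∈ (Set.univ : Set (ℂ × ℂ)) := Set.mem_univ _
    have h1 := hΦ.contr _
      ((HilbertModule.self (ℂ × ℂ)).block_mem_link₂₁ (F := Set.univ) h0
        (Set.mem_univ ((1 : ℂ), (-1 : ℂ)))) 1 zero_le_one ?_
    · have h2 := h1 ((1 : ℂ × ℂ), 0)
      rw [hΦP, HilbertModule.block_apply, HilbertModule.colNorm_zero_right] at h2
      simp only [HilbertModule.self_act, mul_one, zero_mul, HilbertModule.self_ip, star_zero,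
        add_zero, ContinuousLinearMap.zero_apply, HilbertModule.colNorm_zero_left, norm_one,
        hPn] at h2
      norm_num at h2
    · rintro ⟨c, z⟩
      rw [HilbertModule.block_apply]
      simp only [HilbertModule.self_act, zero_mul, HilbertModule.self_ip, star_zero,
        add_zero, ContinuousLinearMap.zero_apply, HilbertModule.colNorm_zero_left]
      calc ‖((1 : ℂ), (-1 : ℂ)) * c‖ ≤ ‖((1 : ℂ), (-1 : ℂ))‖ * ‖c‖ := norm_mul_le _ _
        _ = ‖c‖ := by rw [hn, one_mul]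
        _ ≤ (HilbertModule.self (ℂ × ℂ)).colNorm (c, z) :=
          HilbertModule.norm_fst_le_colNorm _ (c, z)
        _ = 1 * (HilbertModule.self (ℂ × ℂ)).colNorm (c, z) := (one_mul _).symm

end Pool.Agent.Results.MP_0a1256_an.NotCondExp
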